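import Mathlib

/-!
# The abstract integral inequality

`θ` is nondecreasing with derivative `B`, `g ≥ 0` is a weight whose integral over `[w-c,w]` is at
least `c - 1 + r w`, and `g(v) (θ(v+c) - θ(v)) ≤ r(v) B(v)`.  Then
`(c-1) (θ(V₁) - θ(V₀+c)) ≤ θ(V₀+c) - θ(V₀)`.
-/

set_option autoImplicit false

open MeasureTheory Set Filter Topology

namespace Q187.Arc

theorem integral_ineq {c V₀ V₁ : ℝ} (hc : 0 < c) (hV : V₀ + c ≤ V₁) (θ r g B : ℝ → ℝ)
    (hB : ∀ a b, IntervalIntegrable B volume a b)
    (hg : ∀ a b, IntervalIntegrable g volume a b)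
    (hθ : ∀ v w, θ w - θ v = ∫ x in v..w, B x)
    (hr : Continuous r)
    (hB0 : ∀ᵐ x, x ∈ Icc V₀ (V₁ + c) → 0 ≤ B x)
    (hg0 : ∀ᵐ x, x ∈ Icc V₀ V₁ → 0 ≤ g x)
    (hr1 : ∀ x, x ≤ V₁ → r x ≤ 1)
    (hwin : ∀ w, w ∈ Icc (V₀ + c) V₁ → c - 1 + r w ≤ ∫ x in (w - c)..w, g x)
    (hpt : ∀ᵐ v, v ∈ Icc V₀ V₁ → g v * (θ (v + c) - θ v) ≤ r v * B v) :
    (c - 1) * (θ V₁ - θ (V₀ + c)) ≤ θ (V₀ + c) - θ V₀ := by
  set Γ : ℝ → ℝ := fun v => ∫ x in V₀..v, g x with hΓ
  set h : ℝ → ℝ := fun v => θ (v + c) - θ v with hh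
  have hV01 : V₀ ≤ V₁ := by linarith
  have θeq : θ = fun v => θ V₀ + ∫ x in V₀..v, B x := by
    funext v; rw [← hθ]; ring
  -- continuity
  have hθc : Continuous θ := by
    rw [θeq]
    exact continuous_const.add (intervalIntegral.continuous_primitive (fun a b => hB a b) V₀)
  have hΓc : Continuous Γ := intervalIntegral.continuous_primitive (fun a b => hg a b) V₀
  -- a.e. derivatives
  have hBl : LocallyIntegrable B volume := by
    rw [MeasureTheory.locallyIntegrable_iff]
    intro k hk
    obtain ⟨R, hR⟩ := hk.isBounded.subset_closedBall 0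
    have h1 := (hB (-|R| ) (|R|)).1
    refine IntegrableOn.mono_set ?_ hR
    rw [Real.closedBall_eq_Icc, integrableOn_Icc_iff_integrableOn_Ioc]
    refine (hB (0 - R) (0 + R)).1
  have hgl : LocallyIntegrable g volume := by
    rw [MeasureTheory.locallyIntegrable_iff]
    intro k hk
    obtain ⟨R, hR⟩ := hk.isBounded.subset_closedBall 0
    refine IntegrableOn.mono_set ?_ hR
    rw [Real.closedBall_eq_Icc, integrableOn_Icc_iff_integrableOn_Ioc]
    refine (hg (0 - R) (0 + R)).1
  have dθ : ∀ᵐ x, HasDerivAt θ (B x) x := by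
    filter_upwards [LocallyIntegrable.ae_hasDerivAt_integral hBl] with x hx
    rw [θeq]
    exact (hx V₀).const_add _
  have dθ' : ∀ᵐ x, HasDerivAt (fun v => θ (v + c)) (B (x + c)) x := by
    have := (measurePreserving_add_right volume c).quasiMeasurePreserving.ae dθ
    filter_upwards [this] with x hx
    exact hx.comp_add_const x c
  have dΓ : ∀ᵐ x, HasDerivAt Γ (g x) x := by
    filter_upwards [LocallyIntegrable.ae_hasDerivAt_integral hgl] with x hx
    exact hx V₀
  have dh : ∀ᵐ x, HasDerivAt h (B (x + c) - B x) x := by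
    filter_upwards [dθ, dθ'] with x h1 h2
    exact h2.sub h1
  -- absolute continuity
  have acθ : ∀ a b, AbsolutelyContinuousOnInterval θ a b := by
    intro a b
    have h1 : θ = fun v => θ a + ∫ x in a..v, B x := by
      funext v; rw [← hθ]; ring
    rw [h1]
    have h2 := (hB a b).absolutelyContinuousOnInterval_intervalIntegral (c := a) left_mem_uIcc
    have h3 : AbsolutelyContinuousOnInterval (fun _ : ℝ => θ a) a b :=
      (LipschitzWith.const (θ a)).lipschitzOnWith.absolutelyContinuousOnInterval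
    exact h3.add h2
  have acθ' : ∀ a b, AbsolutelyContinuousOnInterval (fun v => θ (v + c)) a b := by
    intro a b
    have h1 : (fun v => θ (v + c)) = fun v => θ (a + c) + ∫ x in a..v, B (x + c) := by
      funext v
      rw [intervalIntegral.integral_comp_add_right, ← hθ]; ring
    rw [h1]
    have hBc : IntervalIntegrable (fun x => B (x + c)) volume a b := by
      have := (hB (a + c) (b + c)).comp_add_right c
      simpa using this
    have h2 := hBc.absolutelyContinuousOnInterval_intervalIntegral (c := a) left_mem_uIcc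
    have h3 : AbsolutelyContinuousOnInterval (fun _ : ℝ => θ (a + c)) a b :=
      (LipschitzWith.const _).lipschitzOnWith.absolutelyContinuousOnInterval
    exact h3.add h2
  have ach : AbsolutelyContinuousOnInterval h V₀ V₁ := (acθ' V₀ V₁).sub (acθ V₀ V₁)
  have acΓ : AbsolutelyContinuousOnInterval Γ V₀ V₁ :=
    (hg V₀ V₁).absolutelyContinuousOnInterval_intervalIntegral (c := V₀) left_mem_uIcc
  -- integration by parts
  have ibp := ach.integral_mul_deriv_eq_deriv_mul acΓ
  have hΓ0 : Γ V₀ = 0 := by simp [hΓ]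
  have e1 : ∫ x in V₀..V₁, h x * deriv Γ x = ∫ x in V₀..V₁, g x * h x := by
    apply intervalIntegral.integral_congr_ae
    filter_upwards [dΓ] with x hx _
    rw [hx.deriv, mul_comm]
  have e2 : ∫ x in V₀..V₁, deriv h x * Γ x = (∫ x in V₀..V₁, B (x + c) * Γ x) -
      ∫ x in V₀..V₁, B x * Γ x := by
    rw [← intervalIntegral.integral_sub]
    · apply intervalIntegral.integral_congr_ae
      filter_upwards [dh] with x hx _
      rw [hx.deriv]
      ring
    · have hBc : IntervalIntegrable (fun x => B (x + c)) volume V₀ V₁ := by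
        have := (hB (V₀ + c) (V₁ + c)).comp_add_right c
        simpa using this
      exact hBc.mul_continuousOn hΓc.continuousOn
    · exact (hB _ _).mul_continuousOn hΓc.continuousOn
  have e3 : ∫ x in V₀..V₁, B (x + c) * Γ x =
      ∫ x in (V₀ + c)..(V₁ + c), B x * Γ (x - c) := by
    rw [← intervalIntegral.integral_comp_add_right (fun x => B x * Γ (x - c)) c]
    simp
  have hΓs : Continuous fun x => Γ (x - c) := hΓc.comp (continuous_id.sub continuous_const)
  have iBΓs : ∀ a b, IntervalIntegrable (fun x => B x * Γ (x - c)) volume a b := fun a b =>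
    (hB a b).mul_continuousOn hΓs.continuousOn
  have iBΓ : ∀ a b, IntervalIntegrable (fun x => B x * Γ x) volume a b := fun a b =>
    (hB a b).mul_continuousOn hΓc.continuousOn
  have iBr : ∀ a b, IntervalIntegrable (fun x => r x * B x) volume a b := fun a b =>
    (hB a b).continuousOn_mul hr.continuousOn
  have e4 : ∫ x in (V₀ + c)..(V₁ + c), B x * Γ (x - c) =
      (∫ x in (V₀ + c)..V₁, B x * Γ (x - c)) + ∫ x in V₁..(V₁ + c), B x * Γ (x - c) :=
    (intervalIntegral.integral_add_adjacent_intervals (iBΓs _ _) (iBΓs _ _)).symm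
  have e5 : ∫ x in V₀..V₁, B x * Γ x =
      (∫ x in V₀..(V₀ + c), B x * Γ x) + ∫ x in (V₀ + c)..V₁, B x * Γ x :=
    (intervalIntegral.integral_add_adjacent_intervals (iBΓ _ _) (iBΓ _ _)).symm
  -- monotonicity of `Γ`
  have Γmono : ∀ x y, V₀ ≤ x → x ≤ y → y ≤ V₁ → Γ x ≤ Γ y := by
    intro x y hx hxy hy
    have h1 : Γ y = Γ x + ∫ s in x..y, g s :=
      (intervalIntegral.integral_add_adjacent_intervals (hg _ _) (hg _ _)).symm
    have h2 : 0 ≤ ∫ s in x..y, g s := by
      apply intervalIntegral.integral_nonneg_of_ae_restrict hxy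
      rw [EventuallyLE, ae_restrict_iff' measurableSet_Icc]
      filter_upwards [hg0] with s hs hs'
      exact hs ⟨hx.trans hs'.1, hs'.2.trans hy⟩
    linarith
  -- the three estimates
  have b1 : ∫ x in V₁..(V₁ + c), B x * Γ (x - c) ≤ h V₁ * Γ V₁ := by
    have : h V₁ * Γ V₁ = ∫ x in V₁..(V₁ + c), B x * Γ V₁ := by
      rw [intervalIntegral.integral_mul_const, ← hθ]
    rw [this]
    apply intervalIntegral.integral_mono_ae_restrict (by linarith) (iBΓs _ _) ((hB _ _).mul_const _)
    rw [EventuallyLE, ae_restrict_iff' measurableSet_Icc]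
    filter_upwards [hB0] with x hx hx'
    have := hx ⟨by linarith [hx'.1], hx'.2⟩
    exact mul_le_mul_of_nonneg_left (Γmono _ _ (by linarith [hx'.1]) (by linarith [hx'.2]) le_rfl)
      this
  have b2 : 0 ≤ ∫ x in V₀..(V₀ + c), B x * Γ x := by
    apply intervalIntegral.integral_nonneg_of_ae_restrict (by linarith)
    rw [EventuallyLE, ae_restrict_iff' measurableSet_Icc]
    filter_upwards [hB0] with x hx hx'
    have h1 := hx ⟨hx'.1, by linarith [hx'.2]⟩
    have h2 := Γmono V₀ x le_rfl hx'.1 (by linarith [hx'.2])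
    rw [hΓ0] at h2
    exact mul_nonneg h1 h2
  have b3 : (c - 1) * (θ V₁ - θ (V₀ + c)) + ∫ x in (V₀ + c)..V₁, r x * B x ≤
      (∫ x in (V₀ + c)..V₁, B x * Γ x) - ∫ x in (V₀ + c)..V₁, B x * Γ (x - c) := by
    rw [← intervalIntegral.integral_sub (iBΓ _ _) (iBΓs _ _), hθ, ← intervalIntegral.integral_const_mul, ← intervalIntegral.integral_add
      ((hB _ _).const_mul _) (iBr _ _)]
    apply intervalIntegral.integral_mono_ae_restrict hV (((hB _ _).const_mul _).add (iBr _ _))
      ((iBΓ _ _).sub (iBΓs _ _))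
    rw [EventuallyLE, ae_restrict_iff' measurableSet_Icc]
    filter_upwards [hB0] with x hx hx'
    have h1 := hx ⟨by linarith [hx'.1], by linarith [hx'.2]⟩
    have h2 := hwin x hx'
    have h3 : Γ x = Γ (x - c) + ∫ s in (x - c)..x, g s :=
      (intervalIntegral.integral_add_adjacent_intervals (hg _ _) (hg _ _)).symm
    have h4 : c - 1 + r x ≤ Γ x - Γ (x - c) := by rw [h3]; linarith
    have h5 := mul_le_mul_of_nonneg_left h4 h1
    show (c - 1) * B x + r x * B x ≤ B x * Γ x - B x * Γ (x - c)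
    linarith
  have b4 : ∫ x in V₀..V₁, g x * h x ≤ ∫ x in V₀..V₁, r x * B x := by
    apply intervalIntegral.integral_mono_ae_restrict hV01
    · exact (hg _ _).mul_continuousOn
        ((hθc.comp (continuous_id.add continuous_const)).sub hθc).continuousOn
    · exact iBr _ _
    · rw [EventuallyLE, ae_restrict_iff' measurableSet_Icc]
      filter_upwards [hpt] with x hx hx'
      exact hx hx'
  have e6 : ∫ x in V₀..V₁, r x * B x =
      (∫ x in V₀..(V₀ + c), r x * B x) + ∫ x in (V₀ + c)..V₁, r x * B x :=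
    (intervalIntegral.integral_add_adjacent_intervals (iBr _ _) (iBr _ _)).symm
  have b5 : ∫ x in V₀..(V₀ + c), r x * B x ≤ θ (V₀ + c) - θ V₀ := by
    rw [hθ]
    apply intervalIntegral.integral_mono_ae_restrict (by linarith) (iBr _ _) (hB _ _)
    rw [EventuallyLE, ae_restrict_iff' measurableSet_Icc]
    filter_upwards [hB0] with x hx hx'
    have h1 := hx ⟨hx'.1, by linarith [hx'.2]⟩
    have h2 := hr1 x (by linarith [hx'.2])
    show r x * B x ≤ B x
    nlinarith
  rw [e1, e2, e3, e4, e5, hΓ0] at ibp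
  linarith

end Q187.Arc
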