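import Pool.Agent.Q187.Arc.Speed
import Pool.Agent.Q187.Arc.Abs

/-!
# The core argument
-/

set_option autoImplicit false

open MeasureTheory Set Filter Topology
open scoped NNReal ENNReal

namespace Q187.Arc

/-- `X (1 + cos β) / 2 ≤ sin β` in terms of `p = cos β`, `q = sin β`. -/
lemma key_ineq {p q X : ℝ} (hpq : p ^ 2 + q ^ 2 = 1) (hq : 0 ≤ q) (hX0 : 0 ≤ X)
    (hXπ : X < Real.pi) (h : 0 ≤ q * Real.cos X - p * Real.sin X) : (1 + p) * X / 2 ≤ q := by
  -- the angle
  set β := Real.arccos p with hβ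
  have hp1 : -1 ≤ p := by nlinarith
  have hp2 : p ≤ 1 := by nlinarith
  have hcos : Real.cos β = p := Real.cos_arccos hp1 hp2
  have hsin : Real.sin β = q := by
    rw [hβ, Real.sin_arccos, show 1 - p ^ 2 = q ^ 2 by linarith, Real.sqrt_sq hq]
  have hβ0 : 0 ≤ β := Real.arccos_nonneg p
  have hβπ : β ≤ Real.pi := Real.arccos_le_pi p
  have h1 : 0 ≤ Real.sin (β - X) := by
    rw [Real.sin_sub, hcos, hsin]; exact h
  have hXβ : X ≤ β := by
    by_contra hcon
    push Not at hcon
    have h2 : Real.sin (X - β) ≤ 0 := by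
      rw [show X - β = -(β - X) by ring, Real.sin_neg]; linarith
    have h3 : 0 < Real.sin (X - β) :=
      Real.sin_pos_of_pos_of_lt_pi (by linarith) (by linarith)
    linarith
  -- `β/2 cos(β/2) ≤ sin(β/2)`
  set t := β / 2 with ht
  have ht0 : 0 ≤ t := by rw [ht]; linarith
  have htπ : t ≤ Real.pi / 2 := by rw [ht]; linarith
  have hct : 0 ≤ Real.cos t := Real.cos_nonneg_of_neg_pi_div_two_le_of_le (by linarith) htπ
  have hkey : t * Real.cos t ≤ Real.sin t := by
    rcases htπ.eq_or_lt with h5 | h5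
    · rw [h5, Real.cos_pi_div_two, mul_zero, Real.sin_pi_div_two]; norm_num
    · have hctpos : 0 < Real.cos t := Real.cos_pos_of_mem_Ioo ⟨by linarith, h5⟩
      have h6 := Real.le_tan ht0 h5
      rw [Real.tan_eq_sin_div_cos, le_div_iff₀ hctpos] at h6
      exact h6
  have hβt : β = 2 * t := by rw [ht]; ring
  have hp : 1 + p = 2 * Real.cos t ^ 2 := by
    rw [← hcos, hβt, Real.cos_two_mul]; ring
  have hq' : q = 2 * Real.sin t * Real.cos t := by
    rw [← hsin, hβt, Real.sin_two_mul]
  have h7 : (1 + p) * X / 2 ≤ (1 + p) * β / 2 := by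
    have : 0 ≤ 1 + p := by linarith
    nlinarith
  refine h7.trans ?_
  rw [hp, hq', hβt]
  nlinarith [mul_le_mul_of_nonneg_right hkey hct]

section

variable {z : ℝ → ℂ} {K : ℝ≥0} (hz : LipschitzWith K z) (h0 : ∀ v, z v ≠ 0)

/-- `√(D/L)` as an exponential -/
noncomputable def rr (z : ℝ → ℂ) (v : ℝ) : ℝ :=
  Real.exp ((Real.log ‖z 0‖ + (lg z v).re - v) / 2)

lemma rr_pos (v : ℝ) : 0 < rr z v := Real.exp_pos _

include hz h0 in
lemma rr_sq (v : ℝ) : rr z v ^ 2 = ‖z v‖ * Real.exp (-v) := by
  unfold rr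
  rw [← Real.exp_nat_mul, polar hz h0 v, norm_mul, Complex.norm_exp]
  have h1 : 0 < ‖z 0‖ := norm_pos_iff.2 (h0 0)
  conv_rhs => rw [← Real.exp_log h1]
  rw [← Real.exp_add, ← Real.exp_add]
  congr 1
  push_cast
  ring

include hz h0 in
lemma rr_continuous : Continuous (rr z) := by
  unfold rr
  have := Complex.continuous_re.comp (lg_continuous hz h0)
  exact Real.continuous_exp.comp (((continuous_const.add this).sub continuous_id).div_const 2)

include hz h0 in
lemma ae_hasDerivAt_rr : ∀ᵐ v, HasDerivAt (rr z) (rr z v * (((ld z v).re - 1) / 2)) v := by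
  filter_upwards [ae_hasDerivAt_lg hz h0] with v hv
  have h1 : HasDerivAt (fun v => (lg z v).re) (ld z v).re v := by
    have := Complex.reCLM.hasFDerivAt.comp_hasDerivAt v hv
    exact this
  have h2 : HasDerivAt (fun v => (Real.log ‖z 0‖ + (lg z v).re - v) / 2)
      (((ld z v).re - 1) / 2) v := ((h1.const_add _).sub (hasDerivAt_id v)).div_const 2
  exact h2.exp

include hz h0 in
lemma rr_ac (a b : ℝ) : AbsolutelyContinuousOnInterval (rr z) a b := by
  obtain ⟨C, hC⟩ := lg_lip hz h0 a b
  have hcont : Continuous fun v => (Real.log ‖z 0‖ + (lg z v).re - v) / 2 := by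
    have := Complex.continuous_re.comp (lg_continuous hz h0)
    exact ((continuous_const.add this).sub continuous_id).div_const 2
  obtain ⟨M, hM⟩ := (isCompact_uIcc.image_of_continuousOn
    (hcont.continuousOn (s := uIcc a b))).bddAbove
  have hM' : ∀ x ∈ uIcc a b, (Real.log ‖z 0‖ + (lg z x).re - x) / 2 ≤ M := fun x hx =>
    hM ⟨x, hx, rfl⟩
  have : LipschitzOnWith ((Real.exp M).toNNReal * (C + 1)) (rr z) (uIcc a b) := by
    refine LipschitzOnWith.of_dist_le_mul fun x hx y hy => ?_
    rw [Real.dist_eq]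
    refine (abs_exp_sub_le (hM' x hx) (hM' y hy)).trans ?_
    rw [NNReal.coe_mul, Real.coe_toNNReal _ (Real.exp_pos M).le, mul_assoc]
    apply mul_le_mul_of_nonneg_left _ (Real.exp_pos M).le
    have h1 := hC.dist_le_mul x hx y hy
    rw [dist_eq_norm] at h1
    have h2 : |(lg z x).re - (lg z y).re| ≤ C * dist x y := by
      rw [← Complex.sub_re]
      exact (Complex.abs_re_le_norm _).trans h1
    have h3 : dist x y = |x - y| := Real.dist_eq x y
    rw [h3] at h2 ⊢
    have h4 : (Real.log ‖z 0‖ + (lg z x).re - x) / 2 - (Real.log ‖z 0‖ + (lg z y).re - y) / 2 =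
        (((lg z x).re - (lg z y).re) - (x - y)) / 2 := by ring
    rw [h4, abs_div, abs_two]
    have h5 := abs_sub ((lg z x).re - (lg z y).re) (x - y)
    have h6 : 0 ≤ (C : ℝ) * |x - y| := by positivity
    have h7 : 0 ≤ |x - y| := abs_nonneg _
    push_cast
    linarith
  exact this.absolutelyContinuousOnInterval

/-- the weight -/
noncomputable def gg (z : ℝ → ℂ) (v : ℝ) : ℝ := (1 / rr z v + rr z v * (ld z v).re) / 2

include hz h0 in
lemma re_ld_int (a b : ℝ) : IntervalIntegrable (fun v => (ld z v).re) volume a b := by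
  have := ld_intervalIntegrable hz h0 a b
  exact ⟨this.1.re, this.2.re⟩

include hz h0 in
lemma im_ld_int (a b : ℝ) : IntervalIntegrable (fun v => (ld z v).im) volume a b := by
  have := ld_intervalIntegrable hz h0 a b
  exact ⟨this.1.im, this.2.im⟩

include hz h0 in
lemma inv_rr_int (a b : ℝ) : IntervalIntegrable (fun v => 1 / rr z v) volume a b := by
  apply Continuous.intervalIntegrable
  exact continuous_const.div (rr_continuous hz h0) fun v => (rr_pos v).ne'

include hz h0 in
lemma rr_re_int (a b : ℝ) :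
    IntervalIntegrable (fun v => rr z v * (ld z v).re) volume a b :=
  (re_ld_int hz h0 a b).continuousOn_mul (rr_continuous hz h0).continuousOn

include hz h0 in
lemma gg_int (a b : ℝ) : IntervalIntegrable (gg z) volume a b := by
  unfold gg
  exact ((inv_rr_int hz h0 a b).add (rr_re_int hz h0 a b)).div_const 2

include hz h0 in
lemma window {a b : ℝ} (hab : a ≤ b) (ha : rr z a ≤ 1) :
    (b - a) - 1 + rr z b ≤ ∫ x in a..b, gg z x := by
  have hcr := rr_continuous hz h0
  have h1 := (rr_ac hz h0 a b).integral_deriv_eq_sub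
  have h2 : ∫ x in a..b, deriv (rr z) x =
      ∫ x in a..b, (rr z x * (ld z x).re - rr z x) / 2 := by
    apply intervalIntegral.integral_congr_ae
    filter_upwards [ae_hasDerivAt_rr hz h0] with x hx _
    rw [hx.deriv]; ring
  have i1 := rr_re_int hz h0 a b
  have i2 : IntervalIntegrable (rr z) volume a b := hcr.intervalIntegrable _ _
  have i3 := inv_rr_int hz h0 a b
  have h3 : ∫ x in a..b, gg z x = (∫ x in a..b, (rr z x * (ld z x).re - rr z x) / 2) +
      ∫ x in a..b, (1 / rr z x + rr z x) / 2 := by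
    rw [← intervalIntegral.integral_add ((i1.sub i2).div_const 2) ((i3.add i2).div_const 2)]
    apply intervalIntegral.integral_congr
    intro x _
    simp only [gg]
    ring
  have h4 : (b - a) ≤ ∫ x in a..b, (1 / rr z x + rr z x) / 2 := by
    have : ∫ x in a..b, (1 : ℝ) = b - a := by simp
    rw [← this]
    apply intervalIntegral.integral_mono_on hab intervalIntegrable_const
      ((i3.add i2).div_const 2)
    intro x _
    have hp : 0 < rr z x := rr_pos x
    have : 1 / rr z x + rr z x - 2 = (rr z x - 1) ^ 2 / rr z x := by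
      field_simp
      ring
    have : 0 ≤ 1 / rr z x + rr z x - 2 := by rw [this]; positivity
    show (1 : ℝ) ≤ (1 / rr z x + rr z x) / 2
    linarith
  rw [h3, ← h2, h1]
  linarith

end

end Q187.Arc
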