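import Pool.Agent.Q187.Arc.Core

/-!
# There is no curve in logarithmic arc length with window longer than one
-/

set_option autoImplicit false

open MeasureTheory Set Filter Topology
open scoped NNReal ENNReal ComplexConjugate

namespace Q187.Arc

section

variable {z : ℝ → ℂ} {K : ℝ≥0} (hz : LipschitzWith K z) (h0 : ∀ v, z v ≠ 0)

/-- the polar angle -/
noncomputable def th (z : ℝ → ℂ) (v : ℝ) : ℝ := (lg z v).im

include hz h0 in
lemma th_sub (v w : ℝ) : th z w - th z v = ∫ x in v..w, (ld z x).im := by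
  unfold th
  rw [← Complex.sub_im, lg_sub hz h0]
  exact (Complex.imCLM.intervalIntegral_comp_comm (ld_intervalIntegrable hz h0 v w)).symm

include hz h0 in
lemma th_continuous : Continuous (th z) := Complex.continuous_im.comp (lg_continuous hz h0)

/-- the positive factor -/
noncomputable def fac (z : ℝ → ℂ) (v w : ℝ) : ℝ :=
  ‖z 0‖ ^ 2 * Real.exp ((lg z w).re + (lg z v).re)

include h0 in
lemma fac_pos (v w : ℝ) : 0 < fac z v w := by
  unfold fac
  have : 0 < ‖z 0‖ := norm_pos_iff.2 (h0 0)
  positivity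

include hz h0 in
lemma conj_mul (v w : ℝ) : conj (z w) * z v =
    (fac z v w : ℂ) * Complex.exp (((th z v - th z w : ℝ) : ℂ) * Complex.I) := by
  rw [polar hz h0 v, polar hz h0 w, map_mul, ← Complex.exp_conj]
  have h1 : conj (lg z w) = ((lg z w).re : ℂ) - ((lg z w).im : ℂ) * Complex.I := by
    apply Complex.ext <;> simp
  have h2 : lg z v = ((lg z v).re : ℂ) + ((lg z v).im : ℂ) * Complex.I :=
    (Complex.re_add_im _).symm
  have h3 : conj (z 0) * z 0 = ((‖z 0‖ ^ 2 : ℝ) : ℂ) := by
    rw [mul_comm, Complex.mul_conj, Complex.normSq_eq_norm_sq]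
  calc conj (z 0) * Complex.exp (conj (lg z w)) * (z 0 * Complex.exp (lg z v))
      = (conj (z 0) * z 0) * (Complex.exp (conj (lg z w)) * Complex.exp (lg z v)) := by ring
    _ = ((‖z 0‖ ^ 2 : ℝ) : ℂ) * Complex.exp (conj (lg z w) + lg z v) := by
        rw [h3, Complex.exp_add]
    _ = ((‖z 0‖ ^ 2 : ℝ) : ℂ) * Complex.exp ((((lg z w).re + (lg z v).re : ℝ) : ℂ) +
          ((th z v - th z w : ℝ) : ℂ) * Complex.I) := by
        congr 2
        rw [h1]
        conv_lhs => rw [h2]
        unfold th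
        push_cast
        ring
    _ = _ := by
        rw [Complex.exp_add, ← Complex.ofReal_exp]
        unfold fac
        push_cast
        ring

variable {c v₀ : ℝ} (hc : 1 < c)
  (hb : ∀ v w, v ≤ v₀ → w ≤ v₀ → ‖z v - z w‖ ≤ |Real.exp v - Real.exp w|)
  (hn : ∀ v, v ≤ v₀ → ‖z v‖ ≤ Real.exp v)
  (hs : ∀ V, V ≤ v₀ → ENNReal.ofReal (Real.exp v₀ - Real.exp V) ≤ eVariationOn z (Icc V v₀))
  (hm : ∀ l, l ≤ v₀ → ∀ t₁ t₂, l - c ≤ t₁ → t₁ < t₂ → t₂ ≤ l →
    0 < (conj (z l) * (z t₂ - z t₁)).im)

lemma im_polar (f x : ℝ) (ζ : ℂ) :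
    (((f : ℂ) * Complex.exp ((x : ℂ) * Complex.I)) * ζ).im =
      f * (Real.cos x * ζ.im + Real.sin x * ζ.re) := by
  rw [Complex.exp_mul_I]
  simp [Complex.mul_im, Complex.mul_re, Complex.cos_ofReal_re, Complex.sin_ofReal_re,
    Complex.cos_ofReal_im, Complex.sin_ofReal_im]
  ring

include hz h0 hm in
lemma sin_pos' {v w : ℝ} (hvw : v < w) (hwv : w ≤ v + c) (hw : w ≤ v₀) :
    0 < Real.sin (th z w - th z v) := by
  have h1 := hm w hw v w (by linarith) hvw le_rfl
  rw [mul_sub, Complex.sub_im, conj_mul hz h0, conj_mul hz h0, sub_self] at h1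
  have e1 := im_polar (fac z w w) 0 1
  have e2 := im_polar (fac z v w) (th z v - th z w) 1
  rw [mul_one] at e1 e2
  rw [e1, e2] at h1
  simp only [Complex.one_im, Complex.one_re, mul_zero, mul_one, zero_add, Real.sin_zero,
    zero_sub] at h1
  have h2 := fac_pos h0 v w
  have h3 : Real.sin (th z v - th z w) = -Real.sin (th z w - th z v) := by
    rw [← Real.sin_neg]; congr 1; ring
  rw [h3] at h1
  have h4 : 0 < fac z v w * Real.sin (th z w - th z v) := by linarith
  exact (mul_pos_iff_of_pos_left h2).1 h4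

include hz h0 hm in
lemma th_window {v w : ℝ} (hvw : v < w) (hwv : w ≤ v + c) (hw : w ≤ v₀) :
    0 < th z w - th z v ∧ th z w - th z v < Real.pi := by
  have hcont : ContinuousOn (fun x => th z x - th z v) (Icc v w) :=
    ((th_continuous hz h0).sub continuous_const).continuousOn
  have hsin : ∀ x ∈ Ioc v w, 0 < Real.sin (th z x - th z v) := fun x hx =>
    sin_pos' hz h0 hm hx.1 (by linarith [hx.2]) (by linarith [hx.2])
  have hv0 : (fun x => th z x - th z v) v = 0 := sub_self _
  constructor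
  · by_contra hcon
    push Not at hcon
    have h1 := hsin w ⟨hvw, le_rfl⟩
    have h2 : th z w - th z v < -Real.pi := by
      by_contra h3
      push Not at h3
      have : Real.sin (th z w - th z v) ≤ 0 := Real.sin_nonpos_of_nonpos_of_neg_pi_le hcon h3
      linarith
    have h3 : -Real.pi ∈ Icc ((fun x => th z x - th z v) w) ((fun x => th z x - th z v) v) := by
      rw [hv0]
      exact ⟨h2.le, by linarith [Real.pi_pos]⟩
    obtain ⟨x, hx, hx'⟩ := intermediate_value_Icc' hvw.le hcont h3
    have hxv : v < x := by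
      rcases hx.1.eq_or_lt with h | h
      · rw [← h] at hx'
        rw [hv0] at hx'
        linarith [Real.pi_pos]
      · exact h
    have h4 := hsin x ⟨hxv, hx.2⟩
    have h5 : th z x - th z v = -Real.pi := hx'
    rw [h5, Real.sin_neg, Real.sin_pi] at h4
    simp at h4
  · by_contra hcon
    push Not at hcon
    have h3 : Real.pi ∈ Icc ((fun x => th z x - th z v) v) ((fun x => th z x - th z v) w) := by
      rw [hv0]
      exact ⟨Real.pi_pos.le, hcon⟩
    obtain ⟨x, hx, hx'⟩ := intermediate_value_Icc hvw.le hcont h3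
    have hxv : v < x := by
      rcases hx.1.eq_or_lt with h | h
      · rw [← h] at hx'
        rw [hv0] at hx'
        linarith [Real.pi_pos]
      · exact h
    have h4 := hsin x ⟨hxv, hx.2⟩
    have h5 : th z x - th z v = Real.pi := hx'
    rw [h5, Real.sin_pi] at h4
    simp at h4

include hm in
/-- one-sided derivative: `Im (conj (z l) z'(t)) ≥ 0` for `t ∈ [l-c, l]`. -/
lemma deriv_sign (hc0 : 0 < c) {l t : ℝ} (hl : l ≤ v₀) (ht : t ∈ Icc (l - c) l)
    (hd : HasDerivAt z (deriv z t) t) : 0 ≤ (conj (z l) * deriv z t).im := by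
  have hmono : MonotoneOn (fun s => (conj (z l) * z s).im) (Icc (l - c) l) := by
    intro x hx y hy hxy
    rcases hxy.eq_or_lt with h | h
    · rw [h]
    · have := hm l hl x y hx.1 h hy.2
      rw [mul_sub, Complex.sub_im] at this
      show (conj (z l) * z x).im ≤ (conj (z l) * z y).im
      linarith
  have h1 : HasDerivAt (fun s => (conj (z l) * z s).im) (conj (z l) * deriv z t).im t := by
    have := Complex.imCLM.hasFDerivAt.comp_hasDerivAt t (hd.const_mul (conj (z l)))
    exact this
  have h2 := h1.hasDerivWithinAt (s := Icc (l - c) l)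
  have h3 := h2.derivWithin ((uniqueDiffOn_Icc (by linarith)) t ht)
  rw [← h3]
  exact hmono.derivWithin_nonneg

lemma ld_mul (h : z v₀ ≠ 0) : z v₀ * ld z v₀ = deriv z v₀ := by
  unfold ld
  field_simp

include hz h0 hc hb hn hs hm in
/-- The inequality between consecutive windows. -/
theorem step {V : ℝ} (hV : V + c ≤ v₀ - c) :
    (c - 1) * (th z (v₀ - c) - th z (V + c)) ≤ th z (V + c) - th z V := by
  have hc0 : 0 < c := by linarith
  have hrsq : ∀ v, rr z v ^ 2 = ‖z v‖ * Real.exp (-v) := rr_sq hz h0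
  have hr1 : ∀ v, v ≤ v₀ → rr z v ≤ 1 := by
    intro v hv
    have h1 : rr z v ^ 2 ≤ 1 := by
      rw [hrsq]
      calc ‖z v‖ * Real.exp (-v) ≤ Real.exp v * Real.exp (-v) :=
            mul_le_mul_of_nonneg_right (hn v hv) (Real.exp_pos _).le
        _ = 1 := by rw [← Real.exp_add, add_neg_cancel, Real.exp_zero]
    have h2 := rr_pos (z := z) v
    nlinarith
  have hspeed := ae_speed hz (V := V) (by linarith) hb (hs V (by linarith))
  have hne : ∀ a : ℝ, ∀ᵐ x : ℝ, x ≠ a := fun a => by simp [ae_iff, measure_singleton]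
  -- facts at a generic point
  have hgen : ∀ᵐ v, v ∈ Icc V v₀ → (rr z v ^ 2 * (ld z v).re) ^ 2 +
      (rr z v ^ 2 * (ld z v).im) ^ 2 = 1 := by
    filter_upwards [hspeed, hne V, hne v₀] with v h1 h2 h3 h4
    have h5 := h1 ⟨lt_of_le_of_ne h4.1 (Ne.symm h2), lt_of_le_of_ne h4.2 h3⟩
    have h6 : ‖ld z v‖ = Real.exp v / ‖z v‖ := by
      unfold ld; rw [norm_div, h5]
    have h7 : (ld z v).re ^ 2 + (ld z v).im ^ 2 = ‖ld z v‖ ^ 2 := by
      rw [← Complex.normSq_eq_norm_sq, Complex.normSq_apply]; ring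
    have hzp : 0 < ‖z v‖ := norm_pos_iff.2 (h0 v)
    calc (rr z v ^ 2 * (ld z v).re) ^ 2 + (rr z v ^ 2 * (ld z v).im) ^ 2
        = (rr z v ^ 2) ^ 2 * ((ld z v).re ^ 2 + (ld z v).im ^ 2) := by ring
      _ = (‖z v‖ * Real.exp (-v)) ^ 2 * (Real.exp v / ‖z v‖) ^ 2 := by rw [hrsq, h7, h6]
      _ = (Real.exp (-v) * Real.exp v) ^ 2 := by field_simp
      _ = 1 := by rw [← Real.exp_add, neg_add_cancel, Real.exp_zero, one_pow]
  have hBpos : ∀ᵐ v, v ∈ Icc V v₀ → 0 ≤ (ld z v).im := by
    filter_upwards [ae_hasDerivAt_z hz] with v hd hv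
    have h1 := deriv_sign hm hc0 hv.2 ⟨by linarith, le_rfl⟩ hd
    rw [← ld_mul (h0 v), ← mul_assoc, conj_mul hz h0, im_polar, sub_self, Real.cos_zero,
      Real.sin_zero, one_mul, zero_mul, add_zero] at h1
    exact (mul_nonneg_iff_of_pos_left (fac_pos h0 v v)).1 h1
  refine integral_ineq (V₀ := V) (V₁ := v₀ - c) hc0 hV (th z) (rr z) (gg z)
    (fun v => (ld z v).im) (im_ld_int hz h0) (gg_int hz h0) (th_sub hz h0) (rr_continuous hz h0)
    ?_ ?_ ?_ ?_ ?_
  · rw [sub_add_cancel]; exact hBpos
  · filter_upwards [hgen] with v h1 h2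
    have h3 := h1 ⟨h2.1, by linarith [h2.2]⟩
    have hr := rr_pos (z := z) v
    have h4 : -1 ≤ rr z v ^ 2 * (ld z v).re := by nlinarith
    have h5 : gg z v = (1 + rr z v ^ 2 * (ld z v).re) / (2 * rr z v) := by
      unfold gg; field_simp
    rw [h5]
    apply div_nonneg <;> linarith
  · intro x hx; exact hr1 x (by linarith)
  · intro w hw
    have := window hz h0 (a := w - c) (b := w) (by linarith) (hr1 _ (by linarith [hw.2]))
    rw [sub_sub_cancel] at this
    exact this
  · filter_upwards [hgen, hBpos, ae_hasDerivAt_z hz] with v h1 h2 hd hv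
    have hv' : v ∈ Icc V v₀ := ⟨hv.1, by linarith [hv.2]⟩
    have h3 := h1 hv'
    have h4 := h2 hv'
    have hr := rr_pos (z := z) v
    obtain ⟨hX0, hXπ⟩ := th_window hz h0 hm (v := v) (w := v + c) (by linarith) le_rfl
      (by linarith [hv.2])
    have h5 := deriv_sign hm hc0 (l := v + c) (t := v) (by linarith [hv.2])
      ⟨by linarith, by linarith⟩ hd
    rw [← ld_mul (h0 v), ← mul_assoc, conj_mul hz h0, im_polar] at h5
    have h6 := (mul_nonneg_iff_of_pos_left (fac_pos h0 v (v + c))).1 h5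
    rw [show th z v - th z (v + c) = -(th z (v + c) - th z v) by ring, Real.cos_neg,
      Real.sin_neg] at h6
    set X := th z (v + c) - th z v with hX
    have h7 : 0 ≤ (rr z v ^ 2 * (ld z v).im) * Real.cos X -
        (rr z v ^ 2 * (ld z v).re) * Real.sin X := by
      have : 0 ≤ rr z v ^ 2 * (Real.cos X * (ld z v).im + -Real.sin X * (ld z v).re) :=
        mul_nonneg (by positivity) h6
      linarith
    have h8 := key_ineq h3 (mul_nonneg (by positivity) h4) hX0.le hXπ h7
    have h9 : gg z v = (1 + rr z v ^ 2 * (ld z v).re) / (2 * rr z v) := by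
      unfold gg; field_simp
    show gg z v * X ≤ rr z v * (ld z v).im
    rw [h9, div_mul_eq_mul_div, div_le_iff₀ (by positivity)]
    nlinarith

include hz h0 hc hb hn hs hm in
/-- **Core theorem.** -/
theorem core : False := by
  have hc0 : 0 < c := by linarith
  set V₁ := v₀ - c with hV₁
  set ε := (c - 1) * (th z V₁ - th z (V₁ - c)) with hε
  have hε0 : 0 < ε := by
    have := (th_window hz h0 hm (v := V₁ - c) (w := V₁) (by linarith) (by linarith)
      (by linarith)).1
    have h2 : 0 < c - 1 := by linarith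
    positivity
  -- one step down
  have hdown : ∀ k : ℕ, th z (V₁ - (k + 1) * c) < th z (V₁ - k * c) := by
    intro k
    have hk : (0 : ℝ) ≤ k * c := by positivity
    have := (th_window hz h0 hm (v := V₁ - (k + 1) * c) (w := V₁ - k * c) (by linarith)
      (by linarith) (by linarith)).1
    linarith
  have hanti : ∀ k : ℕ, th z (V₁ - (k + 1) * c) ≤ th z (V₁ - c) := by
    intro k
    induction k with
    | zero => simp
    | succ k ih =>
      have := hdown (k + 1)
      push_cast at this ⊢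
      linarith
  have hstep : ∀ k : ℕ, (c - 1) * (th z V₁ - th z (V₁ - (k + 1) * c)) ≤
      th z (V₁ - (k + 1) * c) - th z (V₁ - (k + 2) * c) := by
    intro k
    have hk : (0 : ℝ) ≤ k * c := by positivity
    have := step hz h0 hc hb hn hs hm (V := V₁ - (k + 2) * c) (by linarith)
    rw [show V₁ - (k + 2) * c + c = V₁ - (k + 1) * c by ring] at this
    exact this
  have hgrow : ∀ k : ℕ, k * ε ≤ th z V₁ - th z (V₁ - (k + 1) * c) := by
    intro k
    induction k with
    | zero =>
      have := hdown 0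
      simp only [CharP.cast_eq_zero, zero_add, one_mul, zero_mul, sub_zero] at this ⊢
      linarith
    | succ k ih =>
      have h1 := hstep k
      have h2 := hanti k
      have h3 : ε ≤ (c - 1) * (th z V₁ - th z (V₁ - (k + 1) * c)) := by
        rw [hε]
        apply mul_le_mul_of_nonneg_left _ (by linarith)
        linarith
      push_cast
      rw [show V₁ - (k + 1 + 1) * c = V₁ - (k + 2) * c by ring]
      linarith
  obtain ⟨k, hk⟩ := exists_nat_gt (Real.pi / ((c - 1) * ε))
  have hpos : 0 < (c - 1) * ε := mul_pos (by linarith) hε0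
  rw [div_lt_iff₀ hpos] at hk
  have h1 := hstep k
  have h2 := hgrow k
  have hk0 : (0 : ℝ) ≤ k * c := by positivity
  have h3 := (th_window hz h0 hm (v := V₁ - (k + 2) * c) (w := V₁ - (k + 1) * c) (by linarith)
      (by linarith) (by linarith)).2
  have h4 : (c - 1) * (k * ε) ≤ (c - 1) * (th z V₁ - th z (V₁ - (k + 1) * c)) :=
    mul_le_mul_of_nonneg_left h2 (by linarith)
  nlinarith

end

end Q187.Arc
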