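import Pool.Agent.Q187.Arc.Final

/-!
# From rectifiable curves to the logarithmic arc-length parametrisation
-/

set_option autoImplicit false

open MeasureTheory Set Filter Topology
open scoped NNReal ENNReal ComplexConjugate

namespace Q187.Arc

/-- Continuity of the arc length of a continuous rectifiable curve. -/
lemma continuousOn_variation {a b : ℝ} {γ : ℝ → ℂ} (hγ : ContinuousOn γ (Icc a b))
    (hbv : BoundedVariationOn γ (Icc a b)) (ha : a ∈ Icc a b) :
    ContinuousOn (variationOnFromTo γ (Icc a b) a) (Icc a b) := by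
  set s := Icc a b with hs
  have hl := hbv.locallyBoundedVariationOn
  intro x hx
  have h1 := hbv.tendsto_eVariationOn_Icc_zero_left (x := x)
    ((hγ x hx).mono inter_subset_left)
  have h2 := hbv.tendsto_eVariationOn_Icc_zero_right x ((hγ x hx).mono inter_subset_left)
  have h3 := (h1.add h2)
  rw [add_zero] at h3
  have h4 := (ENNReal.tendsto_toReal ENNReal.zero_ne_top).comp h3
  rw [ENNReal.toReal_zero] at h4
  rw [ContinuousWithinAt, tendsto_iff_dist_tendsto_zero]
  refine squeeze_zero' (Eventually.of_forall fun _ => dist_nonneg) ?_ h4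
  filter_upwards [self_mem_nhdsWithin] with y hy
  have e1 : variationOnFromTo γ s a y - variationOnFromTo γ s a x = variationOnFromTo γ s x y := by
    have := variationOnFromTo.add hl ha hx hy
    linarith
  have fin1 : eVariationOn γ (s ∩ Icc y x) ≠ ⊤ := (hbv.mono inter_subset_left)
  have fin2 : eVariationOn γ (s ∩ Icc x y) ≠ ⊤ := (hbv.mono inter_subset_left)
  rw [Real.dist_eq, e1]
  simp only [Function.comp]
  rw [ENNReal.toReal_add fin1 fin2]
  rcases le_total x y with h | h
  · rw [variationOnFromTo.eq_of_le γ s h, abs_of_nonneg ENNReal.toReal_nonneg]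
    have : 0 ≤ (eVariationOn γ (s ∩ Icc y x)).toReal := ENNReal.toReal_nonneg
    linarith
  · rw [variationOnFromTo.eq_of_ge γ s h, abs_neg, abs_of_nonneg ENNReal.toReal_nonneg]
    have : 0 ≤ (eVariationOn γ (s ∩ Icc x y)).toReal := ENNReal.toReal_nonneg
    linarith

/-- determinant of two plane vectors -/
def dt (u w : ℂ) : ℝ := u.re * w.im - u.im * w.re

lemma dt_eq (u w : ℂ) : (conj u * w).im = dt u w := by
  unfold dt; simp [Complex.mul_im]; ring

lemma dt_sub (u w w' : ℂ) : (conj u * (w - w')).im = dt u w - dt u w' := by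
  rw [mul_sub, Complex.sub_im, dt_eq, dt_eq]

lemma dt_cont (u : ℂ) : Continuous (dt u) := by
  unfold dt
  exact (continuous_const.mul Complex.continuous_im).sub
    (continuous_const.mul Complex.continuous_re)

/-- The support condition excludes all parameters with arc length ratio above `exp (-c)`, `c > 1`,
near `a`: contradiction. -/
theorem no_curve {a b : ℝ} {γ : ℝ → ℂ} (hγ : ContinuousOn γ (Icc a b))
    (hbv : BoundedVariationOn γ (Icc a b)) {t₁ c : ℝ} (ht₁ : t₁ ∈ Ioo a b)
    (hpos : 0 < variationOnFromTo γ (Icc a b) a t₁) (hc : 1 < c)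
    (hsup : ∀ t ∈ Ioc a t₁, ∀ τ ∈ Ioc a t,
      (γ a = γ t ∨ IsLocalExtrOn (fun x => dt (γ t - γ a) (γ x)) (Icc a b) τ) →
      0 < variationOnFromTo γ (Icc a b) a t →
      variationOnFromTo γ (Icc a b) a τ <
        Real.exp (-c) * variationOnFromTo γ (Icc a b) a t) : False := by
  set s := Icc a b with hs
  have hab : a < b := ht₁.1.trans ht₁.2
  have ha : a ∈ s := left_mem_Icc.2 hab.le
  have hb' : b ∈ s := right_mem_Icc.2 hab.le
  have hl := hbv.locallyBoundedVariationOn
  set V := variationOnFromTo γ s a with hV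
  have hVc : ContinuousOn V s := continuousOn_variation hγ hbv ha
  have hVm : MonotoneOn V s := variationOnFromTo.monotoneOn hl ha
  have hVa : V a = 0 := variationOnFromTo.self γ s a
  have ht₁s : t₁ ∈ s := ⟨ht₁.1.le, ht₁.2.le⟩
  set Λ := V b with hΛ
  have hVim : V '' s = Icc 0 Λ := by
    apply Subset.antisymm
    · rintro _ ⟨x, hx, rfl⟩
      exact ⟨by rw [← hVa]; exact hVm ha hx hx.1, hVm hx hb' hx.2⟩
    · rw [← hVa]
      exact intermediate_value_Icc hab.le hVc
  set φ := naturalParameterization γ s a with hφ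
  have hφV : ∀ t ∈ s, φ (V t) = γ t := by
    intro t ht
    have := edist_naturalParameterization_eq_zero hl ha ht
    rwa [edist_eq_zero] at this
  have hφ0 : φ 0 = γ a := by rw [← hVa]; exact hφV a ha
  have hunit := has_unit_speed_naturalParameterization γ hl ha
  rw [HasUnitSpeedOn, hasConstantSpeedOnWith_iff_ordered] at hunit
  have hspeed : ∀ x y, 0 ≤ x → x ≤ y → y ≤ Λ →
      eVariationOn φ (Icc x y) = ENNReal.ofReal (y - x) := by
    intro x y hx hxy hy
    have h1 := hunit (x := x) (by rw [hVim]; exact ⟨hx, hxy.trans hy⟩) (y := y)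
      (by rw [hVim]; exact ⟨hx.trans hxy, hy⟩) hxy
    rw [NNReal.coe_one, one_mul, hVim, inter_eq_right.2 (Icc_subset_Icc hx hy)] at h1
    exact h1
  have hφdist : ∀ x y, x ∈ Icc 0 Λ → y ∈ Icc 0 Λ → ‖φ x - φ y‖ ≤ |x - y| := by
    have key : ∀ x y, x ∈ Icc 0 Λ → y ∈ Icc 0 Λ → x ≤ y → ‖φ x - φ y‖ ≤ |x - y| := by
      intro x y hx hy hxy
      have h1 := eVariationOn.edist_le φ (s := Icc x y) (left_mem_Icc.2 hxy) (right_mem_Icc.2 hxy)
      rw [hspeed x y hx.1 hxy hy.2, edist_dist, ENNReal.ofReal_le_ofReal_iff (by linarith),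
        dist_eq_norm] at h1
      rw [abs_sub_comm, abs_of_nonneg (by linarith)]
      exact h1
    intro x y hx hy
    rcases le_total x y with h | h
    · exact key x y hx hy h
    · rw [norm_sub_rev, abs_sub_comm]; exact key y x hy hx h
  have hφc : ContinuousOn φ (Icc 0 Λ) := by
    have : LipschitzOnWith 1 φ (Icc 0 Λ) := LipschitzOnWith.of_dist_le_mul fun x hx y hy => by
      rw [NNReal.coe_one, one_mul, dist_eq_norm, Real.dist_eq]; exact hφdist x y hx hy
    exact this.continuousOn
  -- the curve in logarithmic arc length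
  set v₀ := Real.log (V t₁) with hv₀
  have hev₀ : Real.exp v₀ = V t₁ := Real.exp_log hpos
  have hVt₁Λ : V t₁ ≤ Λ := hVm ht₁s hb' ht₁.2.le
  have hmem : ∀ v, v ≤ v₀ → Real.exp v ∈ Icc 0 Λ := fun v hv =>
    ⟨(Real.exp_pos v).le, by
      have := Real.exp_le_exp.2 hv
      rw [hev₀] at this
      exact this.trans hVt₁Λ⟩
  set z : ℝ → ℂ := fun v => φ (Real.exp (min v v₀)) - γ a with hz
  have hzle : ∀ v, v ≤ v₀ → z v = φ (Real.exp v) - γ a := fun v hv => by
    simp only [hz]; rw [min_eq_left hv]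
  have hlip : LipschitzWith (Real.exp v₀).toNNReal z := by
    refine LipschitzWith.of_dist_le_mul fun v w => ?_
    rw [Real.coe_toNNReal _ (Real.exp_pos _).le, dist_eq_norm, Real.dist_eq]
    have h1 : z v - z w = φ (Real.exp (min v v₀)) - φ (Real.exp (min w v₀)) := by
      simp only [hz]; ring
    rw [h1]
    refine (hφdist _ _ (hmem _ (min_le_right _ _)) (hmem _ (min_le_right _ _))).trans ?_
    refine (abs_exp_sub_le (min_le_right v v₀) (min_le_right w v₀)).trans ?_
    apply mul_le_mul_of_nonneg_left _ (Real.exp_pos _).le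
    have := abs_min_sub_min_le_max v v₀ w v₀
    simpa using this
  -- points of the curve
  have hpt : ∀ v, v ≤ v₀ → ∃ t ∈ Ioc a t₁, V t = Real.exp v ∧ z v = γ t - γ a := by
    intro v hv
    have h1 : Real.exp v ∈ Icc (V a) (V t₁) := by
      rw [hVa, ← hev₀]
      exact ⟨(Real.exp_pos v).le, Real.exp_le_exp.2 hv⟩
    obtain ⟨t, ht, htv⟩ := intermediate_value_Icc ht₁.1.le
      (hVc.mono (Icc_subset_Icc le_rfl ht₁.2.le)) h1
    have hta : a ≠ t := by
      intro h
      rw [← h, hVa] at htv
      exact (Real.exp_pos v).ne htv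
    have hts : t ∈ s := ⟨ht.1, ht.2.trans ht₁.2.le⟩
    refine ⟨t, ⟨lt_of_le_of_ne ht.1 hta, ht.2⟩, htv, ?_⟩
    rw [hzle v hv, ← htv, hφV t hts]
  have h0' : ∀ v, v ≤ v₀ → z v ≠ 0 := by
    intro v hv h
    obtain ⟨t, ht, htv, hzt⟩ := hpt v hv
    rw [h] at hzt
    have h1 : γ a = γ t := by
      have : γ t - γ a = 0 := hzt.symm
      exact (sub_eq_zero.1 this).symm
    have hVt : 0 < V t := by rw [htv]; exact Real.exp_pos v
    have h2 := hsup t ht t ⟨ht.1, le_rfl⟩ (Or.inl h1) hVt
    have h3 : Real.exp (-c) < 1 := by rw [Real.exp_lt_one_iff]; linarith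
    nlinarith
  have h0 : ∀ v, z v ≠ 0 := by
    intro v
    rcases le_total v v₀ with h | h
    · exact h0' v h
    · have : z v = z v₀ := by simp only [hz]; rw [min_eq_right h, min_self]
      rw [this]; exact h0' v₀ le_rfl
  have hb : ∀ v w, v ≤ v₀ → w ≤ v₀ → ‖z v - z w‖ ≤ |Real.exp v - Real.exp w| := by
    intro v w hv hw
    rw [hzle v hv, hzle w hw, sub_sub_sub_cancel_right]
    exact hφdist _ _ (hmem v hv) (hmem w hw)
  have hn : ∀ v, v ≤ v₀ → ‖z v‖ ≤ Real.exp v := by
    intro v hv
    rw [hzle v hv, ← hφ0]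
    refine (hφdist _ _ (hmem v hv) ⟨le_rfl, (hmem v hv).1.trans (hmem v hv).2⟩).trans ?_
    rw [sub_zero, abs_of_pos (Real.exp_pos v)]
  have hsv : ∀ W, W ≤ v₀ →
      ENNReal.ofReal (Real.exp v₀ - Real.exp W) ≤ eVariationOn z (Icc W v₀) := by
    intro W hW
    have h1 : eVariationOn z (Icc W v₀) = eVariationOn (φ ∘ Real.exp) (Icc W v₀) := by
      have h2 : eVariationOn z (Icc W v₀) =
          eVariationOn (fun v => φ (Real.exp v) - γ a) (Icc W v₀) :=
        eVariationOn.congr fun v hv => hzle v hv.2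
      rw [h2]
      unfold eVariationOn
      simp only [edist_sub_right, Function.comp]
    have h3 := eVariationOn.comp_eq_of_monotoneOn φ (t := Icc W v₀) Real.exp
      (Real.exp_monotone.monotoneOn _)
    have h4 : Real.exp '' Icc W v₀ = Icc (Real.exp W) (Real.exp v₀) := by
      apply Subset.antisymm
      · rintro _ ⟨x, hx, rfl⟩
        exact ⟨Real.exp_le_exp.2 hx.1, Real.exp_le_exp.2 hx.2⟩
      · intro y hy
        have hy0 : 0 < y := (Real.exp_pos W).trans_le hy.1
        refine ⟨Real.log y, ⟨?_, ?_⟩, Real.exp_log hy0⟩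
        · rw [Real.le_log_iff_exp_le hy0]; exact hy.1
        · rw [Real.log_le_iff_le_exp hy0]; exact hy.2
    rw [h1, h3, h4, hspeed _ _ (Real.exp_pos _).le (Real.exp_le_exp.2 hW) (hmem v₀ le_rfl).2]
  -- monotonicity of the determinants
  have hmon : ∀ l, l ≤ v₀ →
      StrictMonoOn (fun x => dt (z l) (φ x)) (Icc (Real.exp (l - c)) (Real.exp l)) ∨
      StrictAntiOn (fun x => dt (z l) (φ x)) (Icc (Real.exp (l - c)) (Real.exp l)) := by
    intro l hl'
    obtain ⟨t, ht, htv, hzt⟩ := hpt l hl'
    have hts : t ∈ s := ⟨ht.1.le, ht.2.trans ht₁.2.le⟩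
    have hsub : Icc (Real.exp (l - c)) (Real.exp l) ⊆ Icc 0 Λ :=
      Icc_subset_Icc (Real.exp_pos _).le (hmem l hl').2
    have hcont : ContinuousOn (fun x => dt (z l) (φ x)) (Icc (Real.exp (l - c)) (Real.exp l)) :=
      (dt_cont (z l)).comp_continuousOn (hφc.mono hsub)
    have hnoext : ∀ x ∈ Ioo (Real.exp (l - c)) (Real.exp l),
        ¬ IsLocalExtr (fun x => dt (z l) (φ x)) x := by
      intro x hx hext
      have hxΛ : x ∈ V '' s := by rw [hVim]; exact hsub (Ioo_subset_Icc_self hx)
      obtain ⟨τ, hτ, hτx⟩ := hxΛ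
      have hx0 : 0 < x := (Real.exp_pos _).trans hx.1
      have hτt : τ ≤ t := by
        by_contra hcon
        push Not at hcon
        have := hVm hts hτ hcon.le
        rw [htv, hτx] at this
        linarith [hx.2]
      have hτa : a < τ := by
        rcases hτ.1.eq_or_lt with h | h
        · rw [← h, hVa] at hτx
          linarith
        · exact h
      have hVt : 0 < V t := by rw [htv]; exact Real.exp_pos l
      have hVcτ : Tendsto V (𝓝[s] τ) (𝓝 x) := by rw [← hτx]; exact hVc τ hτ
      have hloc : IsLocalExtrOn (fun x => dt (γ t - γ a) (γ x)) s τ := by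
        have heq : ∀ y ∈ s, dt (γ t - γ a) (γ y) = dt (z l) (φ (V y)) := by
          intro y hy
          rw [hzt, hφV y hy]
        rcases hext with h | h
        · left
          have h' : ∀ᶠ y in 𝓝[s] τ, dt (z l) (φ x) ≤ dt (z l) (φ (V y)) := hVcτ.eventually h
          filter_upwards [h', self_mem_nhdsWithin] with y hy hys
          rw [heq y hys, heq τ hτ, hτx]
          exact hy
        · right
          have h' : ∀ᶠ y in 𝓝[s] τ, dt (z l) (φ (V y)) ≤ dt (z l) (φ x) := hVcτ.eventually h
          filter_upwards [h', self_mem_nhdsWithin] with y hy hys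
          rw [heq y hys, heq τ hτ, hτx]
          exact hy
      have h2 := hsup t ht τ ⟨hτa, hτt⟩ (Or.inr hloc) hVt
      rw [hτx, htv, ← Real.exp_add, show -c + l = l - c by ring] at h2
      linarith [hx.1]
    have hinj : InjOn (fun x => dt (z l) (φ x)) (Icc (Real.exp (l - c)) (Real.exp l)) := by
      have key : ∀ x ∈ Icc (Real.exp (l - c)) (Real.exp l),
          ∀ y ∈ Icc (Real.exp (l - c)) (Real.exp l), x < y →
          dt (z l) (φ x) ≠ dt (z l) (φ y) := by
        intro x hx y hy hxy h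
        obtain ⟨w, hw, hwext⟩ := exists_isLocalExtr_Ioo hxy
          (hcont.mono (Icc_subset_Icc hx.1 hy.2)) h
        exact hnoext w ⟨hx.1.trans_lt hw.1, hw.2.trans_le hy.2⟩ hwext
      intro x hx y hy hxy
      rcases lt_trichotomy x y with h | h | h
      · exact absurd hxy (key x hx y hy h)
      · exact h
      · exact absurd hxy.symm (key y hy x hx h)
    exact hcont.strictMonoOn_of_injOn_Icc' (Real.exp_le_exp.2 (by linarith)) hinj
  -- the sign is constant
  have hdiff : ∀ l, l ≤ v₀ → ∀ x y, x ≤ v₀ → y ≤ v₀ →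
      (conj (z l) * (z y - z x)).im = dt (z l) (φ (Real.exp y)) - dt (z l) (φ (Real.exp x)) := by
    intro l _ x y hx hy
    rw [hzle x hx, hzle y hy, sub_sub_sub_cancel_right, dt_sub]
  set σ : ℝ → ℝ := fun l => (conj (z l) * (z l - z (l - c))).im with hσ
  have hσc : Continuous σ := by
    have := hlip.continuous
    exact Complex.continuous_im.comp ((Complex.continuous_conj.comp this).mul
      (this.sub (this.comp (continuous_id.sub continuous_const))))
  have hσ1 : ∀ l, l ≤ v₀ →
      StrictMonoOn (fun x => dt (z l) (φ x)) (Icc (Real.exp (l - c)) (Real.exp l)) → 0 < σ l := by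
    intro l hl' h
    simp only [hσ]
    rw [hdiff l hl' _ _ (by linarith) hl', sub_pos]
    have hlt : Real.exp (l - c) < Real.exp l := Real.exp_lt_exp.2 (by linarith)
    exact h (left_mem_Icc.2 hlt.le) (right_mem_Icc.2 hlt.le) hlt
  have hσ2 : ∀ l, l ≤ v₀ →
      StrictAntiOn (fun x => dt (z l) (φ x)) (Icc (Real.exp (l - c)) (Real.exp l)) → σ l < 0 := by
    intro l hl' h
    simp only [hσ]
    rw [hdiff l hl' _ _ (by linarith) hl', sub_neg]
    have hlt : Real.exp (l - c) < Real.exp l := Real.exp_lt_exp.2 (by linarith)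
    exact h (left_mem_Icc.2 hlt.le) (right_mem_Icc.2 hlt.le) hlt
  have hσne : ∀ l, l ≤ v₀ → σ l ≠ 0 := by
    intro l hl'
    rcases hmon l hl' with h | h
    · exact (hσ1 l hl' h).ne'
    · exact (hσ2 l hl' h).ne
  have hconst : (∀ l, l ≤ v₀ → 0 < σ l) ∨ (∀ l, l ≤ v₀ → σ l < 0) := by
    by_contra hcon
    push Not at hcon
    obtain ⟨⟨l₁, hl₁, h1⟩, ⟨l₂, hl₂, h2⟩⟩ := hcon
    have hc1 : ContinuousOn σ (uIcc l₁ l₂) := hσc.continuousOn
    have h3 : (0 : ℝ) ∈ uIcc (σ l₁) (σ l₂) := by
      rw [mem_uIcc]; left; exact ⟨h1, h2⟩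
    obtain ⟨l, hl3, hl4⟩ := intermediate_value_uIcc hc1 h3
    have : l ≤ v₀ := by
      rw [mem_uIcc] at hl3
      rcases hl3 with h | h
      · exact h.2.trans hl₂
      · exact h.2.trans hl₁
    exact hσne l this hl4
  rcases hconst with hpos' | hneg'
  · refine core hlip h0 hc hb hn hsv ?_
    intro l hl' x y hx hxy hy
    rcases hmon l hl' with h | h
    · rw [hdiff l hl' _ _ (by linarith) (by linarith), sub_pos]
      exact h ⟨Real.exp_le_exp.2 hx, Real.exp_le_exp.2 (by linarith)⟩
        ⟨Real.exp_le_exp.2 (by linarith), Real.exp_le_exp.2 hy⟩ (Real.exp_lt_exp.2 hxy)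
    · exact absurd (hσ2 l hl' h) (not_lt.2 (hpos' l hl').le)
  · -- reflect
    set z' : ℝ → ℂ := fun v => conj (z v) with hz'
    have hnorm : ∀ x y : ℂ, ‖conj x - conj y‖ = ‖x - y‖ := by
      intro x y; rw [← map_sub]; exact Complex.norm_conj _
    have hlip' : LipschitzWith (Real.exp v₀).toNNReal z' := by
      refine LipschitzWith.of_dist_le_mul fun v w => ?_
      rw [dist_eq_norm, hnorm, ← dist_eq_norm]
      exact hlip.dist_le_mul v w
    have h0'' : ∀ v, z' v ≠ 0 := fun v h => h0 v (by simpa [hz'] using h)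
    refine core hlip' h0'' hc (fun v w hv hw => by rw [hnorm]; exact hb v w hv hw)
      (fun v hv => by
        have : ‖z' v‖ = ‖z v‖ := Complex.norm_conj _
        rw [this]; exact hn v hv) (fun W hW => ?_) ?_
    · have : eVariationOn z' (Icc W v₀) = eVariationOn z (Icc W v₀) := by
        unfold eVariationOn
        have h5 : ∀ x y, edist (z' x) (z' y) = edist (z x) (z y) := by
          intro x y
          rw [edist_dist, edist_dist, dist_eq_norm, dist_eq_norm, hnorm]
        simp only [h5]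
      rw [this]; exact hsv W hW
    · intro l hl' x y hx hxy hy
      rcases hmon l hl' with h | h
      · exact absurd (hσ1 l hl' h) (not_lt.2 (hneg' l hl').le)
      · have h6 : (conj (z' l) * (z' y - z' x)).im = -(conj (z l) * (z y - z x)).im := by
          simp only [hz']
          rw [← map_sub, ← map_mul, Complex.conj_im]
        rw [h6, hdiff l hl' _ _ (by linarith) (by linarith), neg_sub, sub_pos]
        exact h ⟨Real.exp_le_exp.2 hx, Real.exp_le_exp.2 (by linarith)⟩
          ⟨Real.exp_le_exp.2 (by linarith), Real.exp_le_exp.2 hy⟩ (Real.exp_lt_exp.2 hxy)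

end Q187.Arc
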