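import Mathlib

/-!
# Continuous logarithm of a Lipschitz curve in the punctured plane
-/

set_option autoImplicit false

open MeasureTheory Set Filter Topology
open scoped NNReal

namespace Q187.Arc

lemma norm_cexp_sub_le {M : ℝ} {z w : ℂ} (hz : z.re ≤ M) (hw : w.re ≤ M) :
    ‖Complex.exp z - Complex.exp w‖ ≤ Real.exp M * ‖z - w‖ := by
  have hconv : Convex ℝ {x : ℂ | x.re ≤ M} := convex_halfSpace_re_le M
  apply hconv.norm_image_sub_le_of_norm_hasDerivWithin_le (f' := Complex.exp)
    (fun x _ => (Complex.hasDerivAt_exp x).hasDerivWithinAt) _ hw hz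
  intro x hx
  rw [Complex.norm_exp]
  exact Real.exp_le_exp.2 hx

lemma abs_exp_sub_le {M x y : ℝ} (hx : x ≤ M) (hy : y ≤ M) :
    |Real.exp x - Real.exp y| ≤ Real.exp M * |x - y| := by
  have := norm_cexp_sub_le (M := M) (z := x) (w := y) (by simpa using hx) (by simpa using hy)
  rw [← Complex.ofReal_exp, ← Complex.ofReal_exp, ← Complex.ofReal_sub, ← Complex.ofReal_sub,
    Complex.norm_real, Complex.norm_real] at this
  exact this

section

variable {z : ℝ → ℂ} {K : ℝ≥0} (hz : LipschitzWith K z) (h0 : ∀ v, z v ≠ 0)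

include hz in
lemma deriv_bound (v : ℝ) : ‖deriv z v‖ ≤ K := norm_deriv_le_of_lipschitz hz

include hz in
lemma deriv_intervalIntegrable (a b : ℝ) : IntervalIntegrable (deriv z) volume a b := by
  rw [intervalIntegrable_iff]
  apply Measure.integrableOn_of_bounded (M := (K : ℝ))
  · simp [uIoc]
  · exact (stronglyMeasurable_deriv z).aestronglyMeasurable
  · exact Eventually.of_forall fun x => deriv_bound hz x

/-- the logarithmic derivative -/
noncomputable def ld (z : ℝ → ℂ) (v : ℝ) : ℂ := deriv z v / z v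

include hz h0 in
lemma ld_intervalIntegrable (a b : ℝ) : IntervalIntegrable (ld z) volume a b := by
  unfold ld
  simp_rw [div_eq_mul_inv]
  exact (deriv_intervalIntegrable hz a b).mul_continuousOn
    ((hz.continuous.inv₀ h0).continuousOn)

lemma locallyIntegrable_of_interval {f : ℝ → ℂ}
    (hf : ∀ a b, IntervalIntegrable f volume a b) : LocallyIntegrable f volume := by
  rw [MeasureTheory.locallyIntegrable_iff]
  intro k hk
  obtain ⟨R, hR⟩ := hk.isBounded.subset_closedBall 0
  refine IntegrableOn.mono_set ?_ hR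
  rw [Real.closedBall_eq_Icc, integrableOn_Icc_iff_integrableOn_Ioc]
  exact (hf (0 - R) (0 + R)).1

/-- the logarithm, normalised at `0` -/
noncomputable def lg (z : ℝ → ℂ) (v : ℝ) : ℂ := ∫ s in (0 : ℝ)..v, ld z s

include hz h0 in
lemma lg_sub (v w : ℝ) : lg z w - lg z v = ∫ s in v..w, ld z s := by
  unfold lg
  rw [intervalIntegral.integral_interval_sub_left (ld_intervalIntegrable hz h0 _ _)
    (ld_intervalIntegrable hz h0 _ _)]

include hz h0 in
lemma ae_hasDerivAt_lg : ∀ᵐ v, HasDerivAt (lg z) (ld z v) v := by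
  filter_upwards [LocallyIntegrable.ae_hasDerivAt_integral
    (locallyIntegrable_of_interval (ld_intervalIntegrable hz h0))] with v hv
  exact hv 0

include hz in
lemma ae_hasDerivAt_z : ∀ᵐ v, HasDerivAt z (deriv z v) v := by
  filter_upwards [hz.ae_differentiableAt_real] with v hv
  exact hv.hasDerivAt

include hz h0 in
/-- the logarithmic derivative is bounded on compact intervals -/
lemma ld_bound (a b : ℝ) : ∃ C : ℝ≥0, ∀ v ∈ uIcc a b, ‖ld z v‖ ≤ C := by
  have hc : ContinuousOn (fun v => (K : ℝ) * ‖(z v)⁻¹‖) (uIcc a b) :=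
    (continuous_const.mul (hz.continuous.inv₀ h0).norm).continuousOn
  obtain ⟨C, hC⟩ := (isCompact_uIcc.image_of_continuousOn hc).bddAbove
  refine ⟨(max C 0).toNNReal, fun v hv => ?_⟩
  rw [Real.coe_toNNReal _ (le_max_right _ _)]
  refine le_trans ?_ (le_max_left _ _)
  refine le_trans ?_ (hC ⟨v, hv, rfl⟩)
  unfold ld
  rw [div_eq_mul_inv, norm_mul]
  exact mul_le_mul_of_nonneg_right (deriv_bound hz v) (norm_nonneg _)

include hz h0 in
lemma lg_lip (a b : ℝ) : ∃ C : ℝ≥0, LipschitzOnWith C (lg z) (uIcc a b) := by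
  obtain ⟨C, hC⟩ := ld_bound hz h0 a b
  refine ⟨C, LipschitzOnWith.of_dist_le_mul fun x hx y hy => ?_⟩
  rw [dist_eq_norm, lg_sub hz h0, Real.dist_eq]
  refine intervalIntegral.norm_integral_le_of_norm_le_const fun s hs => hC s ?_
  have : uIcc y x ⊆ uIcc a b := uIcc_subset_uIcc hy hx
  exact this (uIoc_subset_uIcc hs)

include hz h0 in
lemma lg_continuous : Continuous (lg z) :=
  intervalIntegral.continuous_primitive (fun a b => ld_intervalIntegrable hz h0 a b) 0

include hz h0 in
/-- **Polar form.** -/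
theorem polar (v : ℝ) : z v = z 0 * Complex.exp (lg z v) := by
  obtain ⟨C, hC⟩ := lg_lip hz h0 0 v
  -- a bound for the real part of `-lg`
  obtain ⟨M, hM⟩ := (isCompact_uIcc.image_of_continuousOn
    ((Complex.continuous_re.comp (lg_continuous hz h0).neg).continuousOn (s := uIcc 0 v))).bddAbove
  have hM' : ∀ x ∈ uIcc 0 v, (-lg z x).re ≤ M := fun x hx => hM ⟨x, hx, rfl⟩
  have hexp : LipschitzOnWith ((Real.exp M).toNNReal * C) (fun x => Complex.exp (-lg z x))
      (uIcc 0 v) := by
    refine LipschitzOnWith.of_dist_le_mul fun x hx y hy => ?_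
    rw [dist_eq_norm]
    refine (norm_cexp_sub_le (hM' x hx) (hM' y hy)).trans ?_
    rw [NNReal.coe_mul, Real.coe_toNNReal _ (Real.exp_pos M).le, mul_assoc]
    apply mul_le_mul_of_nonneg_left _ (Real.exp_pos M).le
    have h1 := hC.dist_le_mul x hx y hy
    rw [dist_eq_norm] at h1
    calc ‖-lg z x - -lg z y‖ = ‖lg z x - lg z y‖ := by rw [← norm_neg]; congr 1; ring
      _ ≤ _ := h1
  have acz : AbsolutelyContinuousOnInterval z 0 v :=
    hz.lipschitzOnWith.absolutelyContinuousOnInterval
  have ace : AbsolutelyContinuousOnInterval (fun x => Complex.exp (-lg z x)) 0 v :=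
    hexp.absolutelyContinuousOnInterval
  have acG := acz.smul ace
  obtain ⟨c, hc⟩ := acG.const_of_ae_hasDerivAt_zero (by
    filter_upwards [ae_hasDerivAt_z hz, ae_hasDerivAt_lg hz h0] with x h1 h2 _
    have h3 : HasDerivAt (fun x => Complex.exp (-lg z x)) (Complex.exp (-lg z x) * -ld z x) x :=
      HasDerivAt.cexp h2.neg
    have h4 := h1.mul h3
    have h5 : deriv z x * Complex.exp (-lg z x) + z x * (Complex.exp (-lg z x) * -ld z x) = 0 := by
      unfold ld
      have := h0 x
      field_simp
      ring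
    rw [h5] at h4
    exact h4)
  have h1 := hc 0 left_mem_uIcc
  have h2 := hc v right_mem_uIcc
  have h3 : z v * Complex.exp (-lg z v) = z 0 * Complex.exp (-lg z 0) := h2.trans h1.symm
  have h4 : lg z 0 = 0 := by simp [lg]
  rw [h4, neg_zero, Complex.exp_zero, mul_one] at h3
  rw [← h3, mul_assoc, ← Complex.exp_add]
  simp

include hz in
/-- complex FTC for Lipschitz curves -/
lemma ftc (a b : ℝ) : ∫ s in a..b, deriv z s = z b - z a := by
  have hint := deriv_intervalIntegrable hz
  have hlip : LipschitzOnWith K (fun x => ∫ s in a..x, deriv z s) (uIcc a b) := by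
    refine LipschitzOnWith.of_dist_le_mul fun x hx y hy => ?_
    rw [dist_eq_norm, intervalIntegral.integral_interval_sub_left (hint _ _) (hint _ _),
      Real.dist_eq]
    exact intervalIntegral.norm_integral_le_of_norm_le_const fun s _ => deriv_bound hz s
  have ac1 : AbsolutelyContinuousOnInterval z a b :=
    hz.lipschitzOnWith.absolutelyContinuousOnInterval
  have ac := ac1.sub hlip.absolutelyContinuousOnInterval
  obtain ⟨c, hc⟩ := ac.const_of_ae_hasDerivAt_zero (by
    filter_upwards [ae_hasDerivAt_z hz, LocallyIntegrable.ae_hasDerivAt_integral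
      (locallyIntegrable_of_interval hint)] with x h1 h2 _
    have := h1.sub (h2 a)
    rw [sub_self] at this
    exact this)
  have h1 := hc a left_mem_uIcc
  have h2 := hc b right_mem_uIcc
  have h3 : z b - ∫ s in a..b, deriv z s = z a - ∫ s in a..a, deriv z s := h2.trans h1.symm
  rw [intervalIntegral.integral_same, sub_zero] at h3
  rw [← h3]; ring

end

end Q187.Arc
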