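import Pool.Agent.Q187.Arc.Polar

/-!
# Speed of the logarithmic arc-length parametrisation
-/

set_option autoImplicit false

open MeasureTheory Set Filter Topology
open scoped NNReal ENNReal

namespace Q187.Arc

variable {z : ℝ → ℂ} {K : ℝ≥0} (hz : LipschitzWith K z)

lemma norm_deriv_le {v₀ : ℝ}
    (hb : ∀ v w, v ≤ v₀ → w ≤ v₀ → ‖z v - z w‖ ≤ |Real.exp v - Real.exp w|) {v : ℝ} (hv : v < v₀)
    (hd : HasDerivAt z (deriv z v) v) : ‖deriv z v‖ ≤ Real.exp v := by
  have h1 := hd.tendsto_slope.norm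
  have h2 := (Real.hasDerivAt_exp v).tendsto_slope.norm
  rw [Real.norm_eq_abs, abs_of_pos (Real.exp_pos v)] at h2
  refine le_of_tendsto_of_tendsto h1 h2 ?_
  have hev : ∀ᶠ w in 𝓝[≠] v, w < v₀ := nhdsWithin_le_nhds (Iio_mem_nhds hv)
  filter_upwards [hev] with w hw
  rw [slope_def_module, slope_def_field, norm_smul, norm_inv, norm_div, div_eq_inv_mul,
    Real.norm_eq_abs, Real.norm_eq_abs]
  apply mul_le_mul_of_nonneg_left _ (by positivity)
  exact hb w v hw.le hv.le

include hz in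
lemma variation_le (a b : ℝ) (hab : a ≤ b) :
    eVariationOn z (Icc a b) ≤ ENNReal.ofReal (∫ s in a..b, ‖deriv z s‖) := by
  have hint := fun a b => (deriv_intervalIntegrable hz a b).norm
  set m : ℝ → ℝ := fun x => ∫ s in a..x, ‖deriv z s‖ with hm
  have hmono : MonotoneOn m (Icc a b) := by
    intro x _ y _ hxy
    have h1 : m y = m x + ∫ s in x..y, ‖deriv z s‖ :=
      (intervalIntegral.integral_add_adjacent_intervals (hint _ _) (hint _ _)).symm
    have h2 : 0 ≤ ∫ s in x..y, ‖deriv z s‖ :=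
      intervalIntegral.integral_nonneg hxy fun s _ => norm_nonneg _
    linarith
  have hle : eVariationOn z (Icc a b) ≤ eVariationOn m (Icc a b) := by
    unfold eVariationOn
    refine iSup_mono fun p => Finset.sum_le_sum fun i _ => ?_
    have h1 : (p.2 : ℕ → ℝ) i ≤ (p.2 : ℕ → ℝ) (i + 1) := p.2.2.1 (Nat.le_succ i)
    rw [edist_dist, edist_dist]
    apply ENNReal.ofReal_le_ofReal
    rw [dist_eq_norm, ← ftc hz]
    refine (intervalIntegral.norm_integral_le_integral_norm h1).trans ?_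
    rw [Real.dist_eq]
    have h2 : m ((p.2 : ℕ → ℝ) (i + 1)) - m ((p.2 : ℕ → ℝ) i) =
        ∫ s in ((p.2 : ℕ → ℝ) i)..((p.2 : ℕ → ℝ) (i + 1)), ‖deriv z s‖ :=
      intervalIntegral.integral_interval_sub_left (hint _ _) (hint _ _)
    rw [h2]
    exact le_abs_self _
  refine hle.trans ?_
  have := hmono.eVariationOn_eq (left_mem_Icc.2 hab) (right_mem_Icc.2 hab)
  rw [inter_self] at this
  rw [this]
  simp [hm]

include hz in
/-- a.e. unit speed -/
theorem ae_speed {V v₀ : ℝ} (hV : V ≤ v₀)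
    (hb : ∀ v w, v ≤ v₀ → w ≤ v₀ → ‖z v - z w‖ ≤ |Real.exp v - Real.exp w|)
    (hs : ENNReal.ofReal (Real.exp v₀ - Real.exp V) ≤ eVariationOn z (Icc V v₀)) :
    ∀ᵐ v, v ∈ Ioo V v₀ → ‖deriv z v‖ = Real.exp v := by
  have hint := (deriv_intervalIntegrable hz V v₀).norm
  have h0 : 0 ≤ ∫ s in V..v₀, ‖deriv z s‖ :=
    intervalIntegral.integral_nonneg hV fun s _ => norm_nonneg _
  have h1 : Real.exp v₀ - Real.exp V ≤ ∫ s in V..v₀, ‖deriv z s‖ := by
    have := hs.trans (variation_le hz V v₀ hV)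
    rwa [ENNReal.ofReal_le_ofReal_iff h0] at this
  have hexp : IntervalIntegrable Real.exp volume V v₀ := Real.continuous_exp.intervalIntegrable _ _
  have h2 : ∫ s in V..v₀, (Real.exp s - ‖deriv z s‖) ≤ 0 := by
    rw [intervalIntegral.integral_sub hexp hint, integral_exp]
    linarith
  have hle : ∀ᵐ v, v ∈ Ioo V v₀ → ‖deriv z v‖ ≤ Real.exp v := by
    filter_upwards [ae_hasDerivAt_z hz] with v hv hv'
    exact norm_deriv_le hb hv'.2 hv
  have hle' : 0 ≤ᵐ[volume.restrict (Ioc V v₀)] fun s => Real.exp s - ‖deriv z s‖ := by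
    rw [← restrict_Ioo_eq_restrict_Ioc, EventuallyLE, ae_restrict_iff' measurableSet_Ioo]
    filter_upwards [hle] with s hs hs'
    have := hs hs'
    simp only [Pi.zero_apply]
    linarith
  have h3 : 0 ≤ ∫ s in V..v₀, (Real.exp s - ‖deriv z s‖) :=
    intervalIntegral.integral_nonneg_of_ae_restrict hV (by
      rw [EventuallyLE, ae_restrict_iff' measurableSet_Icc]
      rw [EventuallyLE, ae_restrict_iff' measurableSet_Ioc] at hle'
      have hne : ∀ᵐ x : ℝ, x ≠ V := by simp [ae_iff, measure_singleton]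
      filter_upwards [hle', hne] with s h1 h2 h3
      exact h1 ⟨lt_of_le_of_ne h3.1 (Ne.symm h2), h3.2⟩)
  have h4 : ∫ s in V..v₀, (Real.exp s - ‖deriv z s‖) = 0 := le_antisymm h2 h3
  rw [intervalIntegral.integral_of_le hV] at h4
  have h5 := (integral_eq_zero_iff_of_nonneg_ae hle'
    ((hexp.sub hint).1)).1 h4
  rw [← restrict_Ioo_eq_restrict_Ioc, EventuallyEq, ae_restrict_iff' measurableSet_Ioo] at h5
  filter_upwards [h5] with s h6 h7
  have := h6 h7
  simp only [Pi.zero_apply] at this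
  linarith

end Q187.Arc
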